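import Pool.Agent.helper60.DA.SpecV

/-!
# Row dv:GAM (MP_fb2c2a_nt)
-/

set_option autoImplicit false

namespace Pool.Agent.helper60.DA

open Polynomial Finset Pool.Agent.helper60.DK

/-- The identity behind GAM. -/
theorem GAM_alg {R : Type} [CommRing R] (x z A A' D D' K K' P P' S S' Q Q' c κ a b d e w : R)
    (h2c : 2 * c = 1) (e1 : a * (x - 2) = z - 2) (e2 : b * (x + 1) = z + 1)
    (e3 : d * (x + 2) = z + 2) (e4 : e * (x - 1) = z - 1)
    (fos : (4 - x ^ 2) * (A' * D - 2 * (A * D')) = 3 * κ * (D * (z * (e * b) - x * D ^ 2)))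
    (ks : (2 - x) * (x + 1) * (K' * D - K * D') = -3 * ((x - 1) * (D ^ 2 - e ^ 2 * d)))
    (hP : P' = a - w) (hS : S' = b - w) (hQ : Q' = d - w) :
    ((4 - x ^ 2) * (x + 1)) * (((z + 2) * (z - 1) * A' - κ * (z * (z + 1) * (K' * D + K * D')
      + 2 * D * D' * (c * (z + 3) * P - 2 * z * S + 3 * c * (z - 1) * Q)
      + D ^ 2 * (c * (z + 3) * P' - 2 * z * S' + 3 * c * (z - 1) * Q'))) * D
      - 2 * ((z + 2) * (z - 1) * A - κ * (z * (z + 1) * (K * D)
      + D ^ 2 * (c * (z + 3) * P - 2 * z * S + 3 * c * (z - 1) * Q))) * D') = 0 := by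
  subst hP hS hQ
  linear_combination (z + 2) * (z - 1) * (x + 1) * fos - κ * z * (z + 1) * D * (2 + x) * ks
    + (3 * κ * D * (z + 2) * (z - 1) * z * e + 2 * κ * D ^ 3 * z * (4 - x ^ 2)) * e2
    + (-3 * κ * z * (z + 1) * D * (x - 1) * e ^ 2
      - 3 * c * κ * D ^ 3 * (z - 1) * (2 - x) * (x + 1)) * e3
    + (-3 * κ * z * (z + 1) * D * (z + 2) * e) * e4
    + κ * D ^ 3 * c * (z + 3) * (x + 2) * (x + 1) * e1
    + (2 * z * κ * D ^ 3 * (4 - x ^ 2) * (x + 1) * w
      - κ * D ^ 3 * (-3 * x * (x + 1) * (z + 2) * (z - 1) + 3 * z * (z + 1) * (x + 2) * (x - 1)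
        + 2 * z * (z + 1) * (4 - x ^ 2))) * h2c

theorem GAM (h1 : FOS_stmt) (h2 : KS_stmt) (h3 : PHD_stmt) : GAM_stmt := by
  intro p _ hp7 hp3 V hV
  have hpp : p.Prime := Fact.out
  have hp5 : 5 ≤ p := by omega
  have fos := h1 p hp7 hp3 V hV
  have ks := h2 p hp5
  obtain ⟨phd, -, -, -⟩ := h3 p hp5
  have hz : derivative ((X : (ZMod p)[X]) ^ p) = 0 := by
    rw [derivative_X_pow, CharP.cast_eq_zero, C_0, zero_mul]
  have hpow : ∀ a : ZMod p, ((X : (ZMod p)[X]) + C a) ^ (p - 1) * (X + C a) = X ^ p + C a := by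
    intro a
    rw [← pow_succ, Nat.sub_add_cancel hpp.one_le, add_pow_char, ← C_pow, ZMod.pow_card]
  have c2 : (C (2 : ZMod p) : (ZMod p)[X]) = 2 := map_ofNat C 2
  have c1 : (C (1 : ZMod p) : (ZMod p)[X]) = 1 := map_one C
  have e1 : ((X : (ZMod p)[X]) - 2) ^ (p - 1) * (X - 2) = X ^ p - 2 := by
    have := hpow (-2)
    rwa [C_neg, c2, ← sub_eq_add_neg, ← sub_eq_add_neg] at this
  have e2 : ((X : (ZMod p)[X]) + 1) ^ (p - 1) * (X + 1) = X ^ p + 1 := by
    have := hpow 1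
    rwa [c1] at this
  have e3 : ((X : (ZMod p)[X]) + 2) ^ (p - 1) * (X + 2) = X ^ p + 2 := by
    have := hpow 2
    rwa [c2] at this
  have e4 : ((X : (ZMod p)[X]) - 1) ^ (p - 1) * (X - 1) = X ^ p - 1 := by
    have := hpow (-1)
    rwa [C_neg, c1, ← sub_eq_add_neg, ← sub_eq_add_neg] at this
  have d1 : derivative (ph p (X : (ZMod p)[X]) (-2)) = (X - 2) ^ (p - 1) - X ^ (p - 1) := by
    have := phd (-2)
    push_cast at this
    rwa [← sub_eq_add_neg] at this
  have d2 : derivative (ph p (X : (ZMod p)[X]) 1) = (X + 1) ^ (p - 1) - X ^ (p - 1) := by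
    have := phd 1
    push_cast at this
    exact this
  have d3 : derivative (ph p (X : (ZMod p)[X]) 2) = (X + 2) ^ (p - 1) - X ^ (p - 1) := by
    have := phd 2
    push_cast at this
    exact this
  have h20 : (2 : ZMod p) ≠ 0 := by
    intro h
    have h' : ((2 : ℕ) : ZMod p) = 0 := by exact_mod_cast h
    rw [ZMod.natCast_eq_zero_iff] at h'
    have := Nat.le_of_dvd (by norm_num) h'
    omega
  have h2c : 2 * (C (1 / 2 : ZMod p) : (ZMod p)[X]) = 1 := by
    rw [← c2, ← C_mul, mul_one_div_cancel h20, c1]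
  have h3c : (C (3 / 2 : ZMod p) : (ZMod p)[X]) = 3 * C (1 / 2 : ZMod p) := by
    have c3 : (C (3 : ZMod p) : (ZMod p)[X]) = 3 := map_ofNat C 3
    rw [← c3, ← C_mul]
    congr 1
    ring
  have h3k : (C (3 * 3 ^ (3 * hh p) : ZMod p) : (ZMod p)[X]) = 3 * C (3 ^ (3 * hh p)) := by
    have c3 : (C (3 : ZMod p) : (ZMod p)[X]) = 3 := map_ofNat C 3
    rw [C_mul, c3]
  have hG : Gm p (red p V) = (X ^ p + 2) * (X ^ p - 1) * hm (3 * hh p) (red p V)
      - C (3 ^ (3 * hh p)) * (X ^ p * (X ^ p + 1) * (Ks p * Ds p)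
      + Ds p ^ 2 * (C (1 / 2) * (X ^ p + 3) * ph p X (-2) - 2 * X ^ p * ph p X 1
        + 3 * C (1 / 2) * (X ^ p - 1) * ph p X 2)) := by
    unfold Gm
    rw [h3c]
  have hD2 : derivative (Ds p ^ 2) = 2 * Ds p * derivative (Ds p) := by
    rw [pow_two, derivative_mul]
    ring
  have hG' : derivative (Gm p (red p V)) = (X ^ p + 2) * (X ^ p - 1) *
      derivative (hm (3 * hh p) (red p V))
      - C (3 ^ (3 * hh p)) * (X ^ p * (X ^ p + 1) * (derivative (Ks p) * Ds p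
        + Ks p * derivative (Ds p))
      + 2 * Ds p * derivative (Ds p) * (C (1 / 2) * (X ^ p + 3) * ph p X (-2)
        - 2 * X ^ p * ph p X 1 + 3 * C (1 / 2) * (X ^ p - 1) * ph p X 2)
      + Ds p ^ 2 * (C (1 / 2) * (X ^ p + 3) * derivative (ph p X (-2))
        - 2 * X ^ p * derivative (ph p X 1)
        + 3 * C (1 / 2) * (X ^ p - 1) * derivative (ph p X 2))) := by
    rw [hG]
    simp only [derivative_add, derivative_sub, derivative_mul, derivative_C, hD2, hz,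
      derivative_one, derivative_ofNat]
    ring
  have key := GAM_alg (X : (ZMod p)[X]) (X ^ p) (hm (3 * hh p) (red p V))
    (derivative (hm (3 * hh p) (red p V))) (Ds p) (derivative (Ds p)) (Ks p)
    (derivative (Ks p)) (ph p X (-2)) (derivative (ph p X (-2))) (ph p X 1)
    (derivative (ph p X 1)) (ph p X 2) (derivative (ph p X 2)) (C (1 / 2)) (C (3 ^ (3 * hh p)))
    ((X - 2) ^ (p - 1)) ((X + 1) ^ (p - 1)) ((X + 2) ^ (p - 1)) ((X - 1) ^ (p - 1))
    (X ^ (p - 1)) h2c e1 e2 e3 e4 (by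
      rw [fos, h3k]
      have : ((X : (ZMod p)[X]) ^ 2 - 1) ^ (p - 1) = (X - 1) ^ (p - 1) * (X + 1) ^ (p - 1) := by
        rw [← mul_pow]
        congr 1
        ring
      rw [this]) (by
      rw [ks]
      have : (((X : (ZMod p)[X]) - 1) ^ 2 * (X + 2)) ^ (p - 1) =
          ((X - 1) ^ (p - 1)) ^ 2 * (X + 2) ^ (p - 1) := by
        rw [mul_pow, ← pow_mul, ← pow_mul, mul_comm 2 (p - 1)]
      rw [this]) d1 d2 d3
  rw [← hG, ← hG'] at key
  have hne : (((4 : (ZMod p)[X]) - X ^ 2) * (X + 1)) ≠ 0 := by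
    intro h
    have h5 := congrArg (Polynomial.eval 0) h
    simp only [eval_mul, eval_sub, eval_add, eval_pow, eval_X, eval_one, eval_zero,
      eval_ofNat] at h5
    have h6 : (2 : ZMod p) * 2 = 0 := by
      linear_combination h5
    rcases mul_eq_zero.1 h6 with h7 | h7
    · exact h20 h7
    · exact h20 h7
  have h8 := (mul_eq_zero.1 key).resolve_left hne
  rw [hD2]
  linear_combination Ds p * h8

end Pool.Agent.helper60.DA
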