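import Pool.Agent.helper60.DA.SpecJ

/-!
# Row dj:HAS (MP_fb2c2a_nt)
-/

set_option autoImplicit false

namespace Pool.Agent.helper60.DA

open Polynomial Finset Pool.Agent.helper60.DK

theorem HAS : HAS_stmt := by
  intro p _ hp3 hp6
  have hp : p = 6 * (p / 6) + 1 := by omega
  generalize hf : p / 6 = f at hp
  apply Finset.sum_involution (fun k _ => p - k)
  · intro k hk
    rw [Finset.mem_Ioc] at hk
    have h1 : k ≤ p := by omega
    rw [Nat.cast_sub h1, ZMod.natCast_self, zero_sub, inv_neg, add_neg_cancel]
  · intro k hk _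
    rw [Finset.mem_Ioc] at hk
    omega
  · intro k hk
    rw [Finset.mem_Ioc] at hk ⊢
    omega
  · intro k hk
    rw [Finset.mem_Ioc] at hk
    show p - (p - k) = k
    omega

end Pool.Agent.helper60.DA
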