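import Pool.Agent.helper60.DA.SpecW

/-!
# Row dw:R2W (MP_fb2c2a_nt)
-/

set_option autoImplicit false

namespace Pool.Agent.helper60.DA

open Polynomial Finset Pool.Agent.helper60.DK

theorem R2W_Dx_add {R : Type} [CommRing R] (f g : R[X]) (c : R) :
    Dx (f + C c * g) = Dx f + C c * Dx g := by
  unfold Dx
  rw [derivative_add, derivative_C_mul]
  ring

theorem R2W_map_Dx (p : ℕ) (f : ℤ[X]) :
    Polynomial.map (Int.castRingHom (ZMod p)) (Dx f) =
      Dx (Polynomial.map (Int.castRingHom (ZMod p)) f) := by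
  unfold Dx
  rw [Polynomial.map_mul, Polynomial.map_X, derivative_map]

/-- The identity behind R2W. -/
theorem R2W_alg {R : Type} [CommRing R] (x a m m' m'' v v' v'' Z Z' A B : R)
    (h1 : 4 * (1 + x) ^ 2 * (1 + 4 * x) ^ 2 * (2 * (m * m'') - m' ^ 2)
      + 8 * x * (1 + x) * (1 + 4 * x) * (5 + 8 * x) * (m * m')
      + (28 * x + 195 * x ^ 2 + 432 * x ^ 3 + 256 * x ^ 4) * m ^ 2
      - 16 * a * x * (1 + x) * (1 + 4 * x) * ((1 + x) * (m * m') + (1 + 2 * x) * m ^ 2)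
      + 16 * a ^ 2 * x ^ 2 * (1 + x) ^ 2 * m ^ 2 = A * (a ^ 2 * Z))
    (h2 : 4 * (1 + x) ^ 2 * (1 + 4 * x) ^ 2 * (2 * ((m + a * v) * (m'' + a * v''))
        - (m' + a * v') ^ 2)
      + 8 * x * (1 + x) * (1 + 4 * x) * (5 + 8 * x) * ((m + a * v) * (m' + a * v'))
      + (28 * x + 195 * x ^ 2 + 432 * x ^ 3 + 256 * x ^ 4) * (m + a * v) ^ 2
      - 4 * a * (1 + x) * (1 + 4 * x) * ((1 + 4 * x) * (3 + 4 * x) * ((m + a * v) * (m' + a * v'))
        + 16 * x * (1 + 2 * x) * (m + a * v) ^ 2)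
      + a ^ 2 * (1 + 4 * x) ^ 2 * (3 + 4 * x) ^ 2 * (m + a * v) ^ 2 = B * (a ^ 2 * Z')) :
    a * (4 * (1 + x) ^ 2 * (1 + 4 * x) ^ 2 * (2 * (m * v'') + 2 * (v * m'') - 2 * (m' * v'))
      + 8 * x * (1 + x) * (1 + 4 * x) * (5 + 8 * x) * (m * v' + v * m')
      + 2 * (28 * x + 195 * x ^ 2 + 432 * x ^ 3 + 256 * x ^ 4) * (m * v)
      + 16 * x * (1 + x) * (1 + 4 * x) * ((1 + x) * (m * m') + (1 + 2 * x) * m ^ 2)
      - 4 * (1 + x) * (1 + 4 * x) * ((1 + 4 * x) * (3 + 4 * x) * ((m + a * v) * (m' + a * v'))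
        + 16 * x * (1 + 2 * x) * (m + a * v) ^ 2))
    = a * (a * (B * Z' - A * Z
      - (4 * (1 + x) ^ 2 * (1 + 4 * x) ^ 2 * (2 * (v * v'') - v' ^ 2)
        + 8 * x * (1 + x) * (1 + 4 * x) * (5 + 8 * x) * (v * v')
        + (28 * x + 195 * x ^ 2 + 432 * x ^ 3 + 256 * x ^ 4) * v ^ 2)
      - (1 + 4 * x) ^ 2 * (3 + 4 * x) ^ 2 * (m + a * v) ^ 2
      + 16 * x ^ 2 * (1 + x) ^ 2 * m ^ 2)) := by
  linear_combination h2 - h1

theorem R2W (hJN : JN_stmt) (hMA : MA_stmt) (hMB : MB_stmt) (hINV : INV_stmt)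
    (hJST : JST_stmt) : R2W_stmt := by
  intro p _ hp7 V2 hV2
  have hpp : p.Prime := Fact.out
  have hp5 : 5 ≤ p := by omega
  obtain ⟨Z', hZ'⟩ := hJN p hp7
  obtain ⟨Z, hZ⟩ := hJST p hp7
  obtain ⟨i1, i2⟩ := hINV p hp5
  have hA := hMA (hh p) (St p)
  have hB := hMB (hh p) (Nz p)
  have h2h : 2 * ((hh p : ℕ) : ℤ) + 1 = (p : ℤ) := by
    have := two_hh (p := p) hp5
    exact_mod_cast this
  rw [h2h] at hA hB
  unfold IsV2 at hV2
  have hpz : ((p : ℤ)) ≠ 0 := by exact_mod_cast hpp.ne_zero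
  have hap : (C (p : ℤ) : ℤ[X]) ≠ 0 := by
    rw [Ne, C_eq_zero]
    exact hpz
  have hsq : (C ((p : ℤ) ^ 2) : ℤ[X]) = C (p : ℤ) ^ 2 := C_pow
  rw [hZ, hsq] at hA
  rw [hZ', hsq] at hB
  have hr : Polynomial.map (Int.castRingHom (ZMod p)) (C (p : ℤ)) = 0 := by
    rw [Polynomial.map_C]
    simp
  generalize hm : (1 + 4 * X) ^ hh p * St p = m at hA hV2 i2
  rw [hV2] at hB
  change Polynomial.map (Int.castRingHom (ZMod p)) m = Pp p at i2
  -- first conclusion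
  have hJ0 : Jc (Pp p) = 0 := by
    have h3 := congrArg (Polynomial.map (Int.castRingHom (ZMod p))) hA
    have h4 : Polynomial.map (Int.castRingHom (ZMod p)) (Jc m) = Jc (Pp p) := by
      unfold Jc
      have e1 := R2W_map_Dx p m
      have e2 := R2W_map_Dx p (Dx m)
      rw [e1, i2] at e2
      rw [i2] at e1
      simp only [Polynomial.map_add, Polynomial.map_sub, Polynomial.map_mul, Polynomial.map_pow,
        Polynomial.map_X, Polynomial.map_one, Polynomial.map_ofNat, e1, e2, i2]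
    rw [Polynomial.map_add, Polynomial.map_sub, h4] at h3
    simp only [Polynomial.map_mul, Polynomial.map_pow, hr, mul_zero, zero_mul, sub_zero,
      ne_eq, OfNat.ofNat_ne_zero, not_false_eq_true, zero_pow, add_zero] at h3
    exact h3
  refine ⟨hJ0, ?_⟩
  unfold Jc at hA hB
  rw [R2W_Dx_add, R2W_Dx_add] at hB
  have key := R2W_alg (X : ℤ[X]) (C (p : ℤ)) m (Dx m) (Dx (Dx m)) V2 (Dx V2) (Dx (Dx V2)) Z Z'
    ((1 + 4 * X) ^ (2 * hh p + 1)) ((1 + X) ^ (2 * hh p + 1)) hA hB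
  have key2 := mul_left_cancel₀ hap key
  have key3 := congrArg (Polynomial.map (Int.castRingHom (ZMod p))) key2
  have e1 : Polynomial.map (Int.castRingHom (ZMod p)) (Dx m) = Dx (Pp p) := by
    have := R2W_map_Dx p m
    rwa [i2] at this
  have e2 : Polynomial.map (Int.castRingHom (ZMod p)) (Dx (Dx m)) = Dx (Dx (Pp p)) := by
    have := R2W_map_Dx p (Dx m)
    rwa [e1] at this
  have e3 : Polynomial.map (Int.castRingHom (ZMod p)) (Dx V2) = Dx (red p V2) := R2W_map_Dx p V2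
  have e4 : Polynomial.map (Int.castRingHom (ZMod p)) (Dx (Dx V2)) = Dx (Dx (red p V2)) := by
    have := R2W_map_Dx p (Dx V2)
    rwa [e3] at this
  have e5 : Polynomial.map (Int.castRingHom (ZMod p)) V2 = red p V2 := rfl
  simp only [Polynomial.map_add, Polynomial.map_sub, Polynomial.map_mul, Polynomial.map_pow,
    Polynomial.map_X, Polynomial.map_one, Polynomial.map_ofNat, i2, e1, e2, e3, e4, hr,
    zero_mul, add_zero] at key3
  linear_combination key3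

end Pool.Agent.helper60.DA
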